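import Mathlib
import Pool.Agent.Work.MP_8efaaa_nt.R.AInt

/-!
# W5/O/OLat: the values of two elliptic functions of the lattice spanned by `(1 + S) / 2` and `1`

`S ^ 2 = -a`, `a > 0`, `N = ⟨(1 + S) / 2, 1⟩`, `A = ⟨(1 + S) / 4, 1⟩`, `B = ⟨(1 + S) / 2, 1 / 2⟩`. The real part of `gf N A (1 / 2)` is
negative, the real part of `S gf N B ((1 + S) / 4)` is negative, `gf N B ((1 + S) / 4) ^ 2 = - gf N A (1 / 2) ^ 2`.
-/

set_option autoImplicit false

namespace Pool.Agent.Work.MP_8efaaa_nt.W5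

open Pool.Agent.Work.CM Pool.Agent.Work.MP_8efaaa_nt.R Filter Topology
open scoped Pointwise

/-- the complex conjugate of a lattice -/
noncomputable def cjM (M : Submodule ℤ ℂ) : Submodule ℤ ℂ :=
  M.map ((starRingEnd ℂ : ℂ →+* ℂ).toAddMonoidHom.toIntLinearMap)

theorem mem_cjM {M : Submodule ℤ ℂ} {z : ℂ} : z ∈ cjM M ↔ (starRingEnd ℂ) z ∈ M := by
  unfold cjM
  rw [Submodule.mem_map]
  constructor
  · rintro ⟨y, hy, rfl⟩
    have : (starRingEnd ℂ) ((starRingEnd ℂ) y) ∈ M := by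
      rw [Complex.conj_conj]
      exact hy
    exact this
  · intro h
    refine ⟨(starRingEnd ℂ) z, h, ?_⟩
    exact Complex.conj_conj z

private theorem mem_conj {M : Submodule ℤ ℂ} {z : ℂ} : (starRingEnd ℂ) z ∈ cjM M ↔ z ∈ M := by
  rw [mem_cjM, Complex.conj_conj]

private noncomputable def cjE (M : Submodule ℤ ℂ) : M ≃ cjM M where
  toFun l := ⟨(starRingEnd ℂ) l, mem_conj.2 l.2⟩
  invFun l := ⟨(starRingEnd ℂ) l, mem_cjM.1 l.2⟩
  left_inv l := by
    apply Subtype.ext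
    exact Complex.conj_conj _
  right_inv l := by
    apply Subtype.ext
    exact Complex.conj_conj _

private theorem cjE_coe (M : Submodule ℤ ℂ) (l : M) :
    ((cjE M l : cjM M) : ℂ) = (starRingEnd ℂ) (l : ℂ) := rfl

theorem wp_cjM (M : Submodule ℤ ℂ) (z : ℂ) :
    (starRingEnd ℂ) (wp M z) = wp (cjM M) ((starRingEnd ℂ) z) := by
  unfold wp
  rw [Complex.conj_tsum, ← (cjE M).tsum_eq]
  refine tsum_congr fun l => ?_
  rw [cjE_coe]
  simp

theorem wpd_cjM (M : Submodule ℤ ℂ) (z : ℂ) :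
    (starRingEnd ℂ) (wpd M z) = wpd (cjM M) ((starRingEnd ℂ) z) := by
  unfold wpd
  rw [map_neg, Complex.conj_tsum, ← (cjE M).tsum_eq]
  congr 1
  refine tsum_congr fun l => ?_
  rw [cjE_coe]
  simp only [map_div₀, map_pow, map_sub, map_ofNat]

private theorem lat_cj {M : Submodule ℤ ℂ} (h : IsLat M) : IsLat (cjM M) := by
  obtain ⟨P, rfl⟩ := h
  have hind : LinearIndependent ℝ ![(starRingEnd ℂ) P.ω₁, (starRingEnd ℂ) P.ω₂] := by
    have h1 := P.indep
    rw [LinearIndependent.pair_iff] at h1 ⊢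
    intro s t hst
    refine h1 s t ?_
    have h2 := congrArg (starRingEnd ℂ) hst
    simpa using h2
  refine ⟨⟨(starRingEnd ℂ) P.ω₁, (starRingEnd ℂ) P.ω₂, hind⟩, ?_⟩
  ext z
  rw [mem_cjM, PeriodPair.mem_lattice, PeriodPair.mem_lattice]
  constructor
  · rintro ⟨m, n, rfl⟩
    exact ⟨m, n, by simp⟩
  · rintro ⟨m, n, h⟩
    refine ⟨m, n, ?_⟩
    have h2 := congrArg (starRingEnd ℂ) h
    rw [Complex.conj_conj] at h2
    rw [← h2]
    simp

theorem two_cjM {N L : Submodule ℤ ℂ} (h : Two N L) : Two (cjM N) (cjM L) where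
  lat := lat_cj h.lat
  lat' := lat_cj h.lat'
  le := by
    intro z hz
    rw [mem_cjM] at hz ⊢
    exact h.le hz
  ex := by
    obtain ⟨u, hu, hu', h2⟩ := h.ex
    refine ⟨(starRingEnd ℂ) u, mem_conj.2 hu, fun h3 => hu' (mem_conj.1 h3), fun z hz => ?_⟩
    rcases h2 _ (mem_cjM.1 hz) with h3 | h3
    · exact Or.inl (mem_cjM.2 h3)
    · right
      rw [mem_cjM, map_sub, Complex.conj_conj]
      exact h3

theorem ev_cjM {N L : Submodule ℤ ℂ} (h : Two N L) :
    (starRingEnd ℂ) (ev N L) = ev (cjM N) (cjM L) := by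
  obtain ⟨u, hu, hu', -⟩ := h.ex
  rw [← h.ev_eq hu hu', wp_cjM,
    (two_cjM h).ev_eq (mem_conj.2 hu) (fun h3 => hu' (mem_conj.1 h3))]

theorem sg_cjM {N L : Submodule ℤ ℂ} (h : Two N L) (z : ℂ) :
    (starRingEnd ℂ) (sg N L z) = sg (cjM N) (cjM L) ((starRingEnd ℂ) z) := by
  unfold sg
  rw [map_div₀, map_mul, map_sub, wp_cjM, wpd_cjM, ev_cjM h, map_ofNat]

theorem gf_cjM {N L : Submodule ℤ ℂ} (h : Two N L) (z : ℂ) :
    (starRingEnd ℂ) (gf N L z) = gf (cjM N) (cjM L) ((starRingEnd ℂ) z) := by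
  unfold gf
  rw [sg_cjM (two_dbl h)]
  congr 1
  ext y
  rw [mem_cjM, mem_dbl, mem_dbl, mem_cjM, map_div₀, map_ofNat]

/-- a real function without zeros on a connected set has a constant sign -/
theorem neg_conn {f : ℝ → ℝ} {s : Set ℝ} (hs : IsPreconnected s) (hc : ContinuousOn f s)
    (hne : ∀ x ∈ s, f x ≠ 0) {x0 : ℝ} (h0 : x0 ∈ s) (hx0 : f x0 < 0) {x : ℝ} (hx : x ∈ s) :
    f x < 0 := by
  by_contra h1
  have h2 := hs.intermediate_value h0 hx hc
  obtain ⟨y, hy, hy0⟩ := h2 ⟨hx0.le, not_lt.1 h1⟩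
  exact hne y hy hy0

/-- the sign near `0` in the direction `u` -/
theorem near_zero {N A : Submodule ℤ ℂ} (h : Two N A) {u : ℂ} (hu : u ≠ 0) {b : ℝ} (hb : 0 < b) :
    ∃ x ∈ Set.Ioc 0 b, (u * gf N A (x * u)).re < 0 := by
  have t1 : Tendsto (fun x : ℝ => (x : ℂ) * u) (𝓝[>] 0) (𝓝[≠] 0) := by
    refine tendsto_nhdsWithin_of_tendsto_nhds_of_eventually_within _ ?_ ?_
    · have c : Continuous fun x : ℝ => (x : ℂ) * u := by fun_prop
      have := c.tendsto 0
      rw [Complex.ofReal_zero, zero_mul] at this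
      exact this.mono_left nhdsWithin_le_nhds
    · filter_upwards [self_mem_nhdsWithin] with x hx
      have hx0 : (x : ℂ) ≠ 0 := Complex.ofReal_ne_zero.2 (ne_of_gt hx)
      exact mul_ne_zero hx0 hu
  have t2 := (gf_tendsto h).comp t1
  have t3 : Tendsto (fun x : ℝ => ((x : ℂ) * u * gf N A (x * u)).re) (𝓝[>] 0) (𝓝 (-1)) := by
    have := (Complex.continuous_re.tendsto (-1)).comp t2
    have e : (-1 : ℂ).re = -1 := by simp
    rw [e] at this
    exact this
  have e1 : ∀ᶠ x : ℝ in 𝓝[>] 0, ((x : ℂ) * u * gf N A (x * u)).re < 0 :=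
    t3.eventually_lt_const (by norm_num)
  have e2 : ∀ᶠ x : ℝ in 𝓝[>] 0, x ∈ Set.Ioc 0 b := Ioc_mem_nhdsGT hb
  obtain ⟨x, h1, h2⟩ := (e1.and e2).exists
  refine ⟨x, h2, ?_⟩
  rw [mul_assoc, Complex.re_ofReal_mul] at h1
  have := h2.1
  by_contra h3
  exact absurd (mul_nonneg this.le (not_lt.1 h3)) (not_le.2 h1)

section
variable {S : ℂ} {a : ℝ}

theorem re_zero (ha : 0 < a) (hS : S ^ 2 = -(a : ℂ)) : S.re = 0 ∧ S.im ≠ 0 := by
  have h1 := congrArg Complex.re hS
  have h2 := congrArg Complex.im hS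
  rw [pow_two, Complex.mul_re, Complex.neg_re, Complex.ofReal_re] at h1
  rw [pow_two, Complex.mul_im, Complex.neg_im, Complex.ofReal_im] at h2
  have h3 : S.re * S.im = 0 := by linarith
  rcases mul_eq_zero.1 h3 with h4 | h4
  · refine ⟨h4, fun h5 => ?_⟩
    rw [h4, h5] at h1
    linarith
  · exfalso
    rw [h4] at h1
    nlinarith [mul_self_nonneg S.re]

theorem mem_sp {x y z : ℂ} :
    z ∈ Submodule.span ℤ {x, y} ↔ ∃ m n : ℤ, (m : ℂ) * x + n * y = z := by
  rw [Submodule.mem_span_pair]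
  simp only [zsmul_eq_mul]

/-- the coordinates of the elements of the lattice `⟨(1 + S) / 2, 1⟩` -/
theorem coord (h0 : S.re = 0) {z : ℂ} (hz : z ∈ Submodule.span ℤ {(1 + S) / 2, (1 : ℂ)}) :
    ∃ m n : ℤ, z.re = m / 2 + n ∧ z.im = m * (S.im / 2) := by
  obtain ⟨m, n, e⟩ := mem_sp.1 hz
  refine ⟨m, n, ?_, ?_⟩
  · rw [← e]
    have : ((m : ℂ) * ((1 + S) / 2) + n * 1) = ((m / 2 + n : ℝ) : ℂ) + ((m / 2 : ℝ) : ℂ) * S := by
      push_cast
      ring
    rw [this, Complex.add_re, Complex.ofReal_re, Complex.re_ofReal_mul, h0]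
    ring
  · rw [← e]
    have : ((m : ℂ) * ((1 + S) / 2) + n * 1) = ((m / 2 + n : ℝ) : ℂ) + ((m / 2 : ℝ) : ℂ) * S := by
      push_cast
      ring
    rw [this, Complex.add_im, Complex.ofReal_im, Complex.im_ofReal_mul]
    ring

theorem coordB (h0 : S.re = 0) {z : ℂ} (hz : z ∈ Submodule.span ℤ {(1 + S) / 2, (1 / 2 : ℂ)}) :
    ∃ m n : ℤ, z.re = m / 2 + n / 2 ∧ z.im = m * (S.im / 2) := by
  obtain ⟨m, n, e⟩ := mem_sp.1 hz
  have : ((m : ℂ) * ((1 + S) / 2) + n * (1 / 2)) =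
      ((m / 2 + n / 2 : ℝ) : ℂ) + ((m / 2 : ℝ) : ℂ) * S := by
    push_cast
    ring
  refine ⟨m, n, ?_, ?_⟩
  · rw [← e, this, Complex.add_re, Complex.ofReal_re, Complex.re_ofReal_mul, h0]
    ring
  · rw [← e, this, Complex.add_im, Complex.ofReal_im, Complex.im_ofReal_mul]
    ring

theorem conj_S (h0 : S.re = 0) : (starRingEnd ℂ) S = -S := by
  apply Complex.ext
  · rw [Complex.conj_re, Complex.neg_re, h0, neg_zero]
  · rw [Complex.conj_im, Complex.neg_im]

theorem cj_N (h0 : S.re = 0) : cjM (Submodule.span ℤ {(1 + S) / 2, (1 : ℂ)}) =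
    Submodule.span ℤ {(1 + S) / 2, (1 : ℂ)} := by
  have key : ∀ z ∈ Submodule.span ℤ {(1 + S) / 2, (1 : ℂ)},
      (starRingEnd ℂ) z ∈ Submodule.span ℤ {(1 + S) / 2, (1 : ℂ)} := by
    intro z hz
    obtain ⟨m, n, e⟩ := mem_sp.1 hz
    refine mem_sp.2 ⟨-m, m + n, ?_⟩
    rw [← e]
    simp only [map_add, map_mul, map_div₀, map_ofNat, map_intCast, map_one, conj_S h0]
    push_cast
    ring
  ext z
  rw [mem_cjM]
  refine ⟨fun h => ?_, fun h => key z h⟩
  have := key _ h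
  rwa [Complex.conj_conj] at this

theorem cj_B (h0 : S.re = 0) : cjM (Submodule.span ℤ {(1 + S) / 2, (1 / 2 : ℂ)}) =
    Submodule.span ℤ {(1 + S) / 2, (1 / 2 : ℂ)} := by
  have key : ∀ z ∈ Submodule.span ℤ {(1 + S) / 2, (1 / 2 : ℂ)},
      (starRingEnd ℂ) z ∈ Submodule.span ℤ {(1 + S) / 2, (1 / 2 : ℂ)} := by
    intro z hz
    obtain ⟨m, n, e⟩ := mem_sp.1 hz
    refine mem_sp.2 ⟨-m, 2 * m + n, ?_⟩
    rw [← e]
    simp only [map_add, map_mul, map_div₀, map_ofNat, map_intCast, map_one, conj_S h0]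
    push_cast
    ring
  ext z
  rw [mem_cjM]
  refine ⟨fun h => ?_, fun h => key z h⟩
  have := key _ h
  rwa [Complex.conj_conj] at this

theorem cj_A (h0 : S.re = 0) (h1 : S.im ≠ 0) :
    cjM (Submodule.span ℤ {(1 + S) / 4, (1 : ℂ)}) ≠ Submodule.span ℤ {(1 + S) / 4, (1 : ℂ)} := by
  intro h2
  have h3 : (1 + S) / 4 ∈ cjM (Submodule.span ℤ {(1 + S) / 4, (1 : ℂ)}) := by
    rw [h2]
    exact Submodule.subset_span (by simp)
  rw [mem_cjM] at h3
  obtain ⟨m, n, e⟩ := mem_sp.1 h3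
  simp only [map_add, map_div₀, map_ofNat, map_one, conj_S h0] at e
  have e' : ((m / 4 + n : ℝ) : ℂ) + ((m / 4 : ℝ) : ℂ) * S = ((1 / 4 : ℝ) : ℂ) + ((-1 / 4 : ℝ) : ℂ) * S := by
    push_cast
    linear_combination e
  have r := congrArg Complex.re e'
  have i := congrArg Complex.im e'
  rw [Complex.add_re, Complex.add_re, Complex.ofReal_re, Complex.ofReal_re, Complex.re_ofReal_mul,
    Complex.re_ofReal_mul, h0] at r
  rw [Complex.add_im, Complex.add_im, Complex.ofReal_im, Complex.ofReal_im, Complex.im_ofReal_mul,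
    Complex.im_ofReal_mul] at i
  have i2 : (m : ℝ) / 4 = -1 / 4 := by
    have : ((m : ℝ) / 4 - (-1 / 4)) * S.im = 0 := by linarith
    rcases mul_eq_zero.1 this with h | h
    · linarith
    · exact absurd h h1
  have r2 : (2 * n : ℝ) = 1 := by linarith
  have r3 : (2 * n : ℤ) = 1 := by exact_mod_cast r2
  omega

theorem notN_real (h0 : S.re = 0) (h1 : S.im ≠ 0) {x : ℝ} (hx : 0 < x) (hx' : x ≤ 1 / 2) :
    (x : ℂ) ∉ Submodule.span ℤ {(1 + S) / 2, (1 : ℂ)} := by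
  intro h
  obtain ⟨m, n, r, i⟩ := coord h0 h
  rw [Complex.ofReal_re] at r
  rw [Complex.ofReal_im] at i
  have hm : (m : ℝ) = 0 := by
    rcases mul_eq_zero.1 i.symm with h | h
    · exact h
    · exact absurd (by linarith : S.im = 0) h1
  rw [hm] at r
  have r1 : (0 : ℝ) < n := by linarith
  have r2 : (n : ℝ) < 1 := by linarith
  have r3 : (0 : ℤ) < n := by exact_mod_cast r1
  have r4 : n < (1 : ℤ) := by exact_mod_cast r2
  omega

theorem notB_vert (h0 : S.re = 0) (h1 : S.im ≠ 0) {x : ℝ} (hx : 0 < x) (hx' : x ≤ 1 / 4) :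
    (x * S : ℂ) ∉ Submodule.span ℤ {(1 + S) / 2, (1 / 2 : ℂ)} := by
  intro h
  obtain ⟨m, n, r, i⟩ := coordB h0 h
  rw [Complex.im_ofReal_mul] at i
  have hm : (m : ℝ) = 2 * x := by
    have : (x - m / 2) * S.im = 0 := by linarith
    rcases mul_eq_zero.1 this with h | h
    · linarith
    · exact absurd h h1
  have r1 : (0 : ℝ) < m := by linarith
  have r2 : (m : ℝ) < 1 := by linarith
  have r3 : (0 : ℤ) < m := by exact_mod_cast r1
  have r4 : m < (1 : ℤ) := by exact_mod_cast r2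
  omega

theorem N_le_B : Submodule.span ℤ {(1 + S) / 2, (1 : ℂ)} ≤
    Submodule.span ℤ {(1 + S) / 2, (1 / 2 : ℂ)} := by
  intro z hz
  obtain ⟨m, n, e⟩ := mem_sp.1 hz
  refine mem_sp.2 ⟨m, 2 * n, ?_⟩
  rw [← e]
  push_cast
  ring

theorem gfA_neg (ha : 0 < a) (hS : S ^ 2 = -(a : ℂ))
    (hA : Two (Submodule.span ℤ {(1 + S) / 2, (1 : ℂ)}) (Submodule.span ℤ {(1 + S) / 4, (1 : ℂ)})) :
    (gf (Submodule.span ℤ {(1 + S) / 2, (1 : ℂ)}) (Submodule.span ℤ {(1 + S) / 4, (1 : ℂ)})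
      (1 / 2)).re < 0 := by
  obtain ⟨h0, h1⟩ := re_zero ha hS
  set N := Submodule.span ℤ {(1 + S) / 2, (1 : ℂ)} with hN
  set A := Submodule.span ℤ {(1 + S) / 4, (1 : ℂ)} with hA'
  have hcN : cjM N = N := cj_N h0
  have hcA : cjM A ≠ A := cj_A h0 h1
  have hA2 : Two N (cjM A) := by
    have := two_cjM hA
    rwa [hcN] at this
  have hn : ∀ x ∈ Set.Ioc (0 : ℝ) (1 / 2), (x : ℂ) ∉ N := fun x hx => notN_real h0 h1 hx.1 hx.2
  obtain ⟨x0, hx0, hx1⟩ := near_zero hA (u := 1) one_ne_zero (b := 1 / 2) (by norm_num)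
  rw [one_mul, mul_one] at hx1
  have key := neg_conn (f := fun x : ℝ => (gf N A (x : ℂ)).re) (s := Set.Ioc 0 (1 / 2))
    isPreconnected_Ioc ?_ ?_ hx0 hx1 (x := 1 / 2) (by norm_num)
  · simpa using key
  · intro x hx
    refine ContinuousAt.continuousWithinAt ?_
    have c1 := (gf_analytic hA (hn x hx)).continuousAt
    exact Complex.continuous_re.continuousAt.comp
      (c1.comp (f := fun x : ℝ => (x : ℂ)) Complex.continuous_ofReal.continuousAt)
  · intro x hx h2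
    have h3 : (starRingEnd ℂ) (gf N A (x : ℂ)) = -gf N A (x : ℂ) := by
      apply Complex.ext
      · rw [Complex.conj_re, Complex.neg_re, h2, neg_zero]
      · rw [Complex.conj_im, Complex.neg_im]
    have h4 := gf_sq hA (hn x hx)
    have h5 := congrArg (starRingEnd ℂ) h4
    rw [map_pow, h3, neg_sq, h4, map_sub, wp_cjM, hcN, Complex.conj_ofReal, ev_cjM hA, hcN] at h5
    exact Two.ev_ne hA hA2 hcA.symm (by linear_combination -h5)

theorem gfB_neg (ha : 0 < a) (hS : S ^ 2 = -(a : ℂ))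
    (hB : Two (Submodule.span ℤ {(1 + S) / 2, (1 : ℂ)})
      (Submodule.span ℤ {(1 + S) / 2, (1 / 2 : ℂ)})) :
    (S * gf (Submodule.span ℤ {(1 + S) / 2, (1 : ℂ)})
      (Submodule.span ℤ {(1 + S) / 2, (1 / 2 : ℂ)}) ((1 + S) / 4)).re < 0 := by
  obtain ⟨h0, h1⟩ := re_zero ha hS
  have hSne : S ≠ 0 := fun h => h1 (by rw [h, Complex.zero_im])
  set N := Submodule.span ℤ {(1 + S) / 2, (1 : ℂ)} with hN
  set B := Submodule.span ℤ {(1 + S) / 2, (1 / 2 : ℂ)} with hB'
  have hcN : cjM N = N := cj_N h0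
  have hcB : cjM B = B := cj_B h0
  have hNB : N ≤ B := N_le_B
  have hv : ∀ x ∈ Set.Ioc (0 : ℝ) (1 / 4), (x * S : ℂ) ∉ B := fun x hx => notB_vert h0 h1 hx.1 hx.2
  -- the vertical segment
  have hne : ∀ x ∈ Set.Ioc (0 : ℝ) (1 / 4), (S * gf N B (x * S)).re ≠ 0 := by
    intro x hx h2
    have h3 := gf_cjM hB (x * S)
    rw [hcN, hcB, map_mul, Complex.conj_ofReal, conj_S h0, mul_neg, gf_neg hB] at h3
    have h4 : (starRingEnd ℂ) (S * gf N B (x * S)) = S * gf N B (x * S) := by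
      rw [map_mul, h3, conj_S h0]
      ring
    have h5 : S * gf N B (x * S) = 0 := by
      apply Complex.ext
      · rw [h2, Complex.zero_re]
      · rw [Complex.zero_im]
        have := congrArg Complex.im h4
        rw [Complex.conj_im] at this
        linarith
    exact mul_ne_zero hSne (gf_ne hB (hv x hx)) h5
  obtain ⟨x0, hx0, hx1⟩ := near_zero hB hSne (b := 1 / 4) (by norm_num)
  have k1 := neg_conn (f := fun x : ℝ => (S * gf N B (x * S)).re) (s := Set.Ioc 0 (1 / 4))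
    isPreconnected_Ioc ?_ hne hx0 hx1 (x := 1 / 4) (by norm_num)
  swap
  · intro x hx
    refine ContinuousAt.continuousWithinAt ?_
    have c1 := (gf_analytic hB (fun h => hv x hx (hNB h))).continuousAt
    have c2 : ContinuousAt (fun x : ℝ => gf N B ((x : ℂ) * S)) x :=
      ContinuousAt.comp (f := fun x : ℝ => (x : ℂ) * S) c1 (by fun_prop)
    exact Complex.continuous_re.continuousAt.comp (continuousAt_const.mul c2)
  -- the horizontal segment
  have hn : ∀ x ∈ Set.Icc (0 : ℝ) (1 / 4), (x + S / 4 : ℂ) ∉ N := by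
    intro x hx h
    obtain ⟨m, n, r, i⟩ := coord h0 h
    have e : (x + S / 4 : ℂ) = (x : ℂ) + ((1 / 4 : ℝ) : ℂ) * S := by
      push_cast
      ring
    rw [e, Complex.add_im, Complex.ofReal_im, Complex.im_ofReal_mul] at i
    have : ((1 / 4 : ℝ) - m / 2) * S.im = 0 := by linarith
    rcases mul_eq_zero.1 this with h | h
    · have h3 : (2 * m : ℝ) = 1 := by linarith
      have h4 : (2 * m : ℤ) = 1 := by exact_mod_cast h3
      omega
    · exact h1 h
  have hne2 : ∀ x ∈ Set.Icc (0 : ℝ) (1 / 4), (S * gf N B (x + S / 4)).re ≠ 0 := by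
    intro x hx h2
    rcases eq_or_lt_of_le hx.1 with hx0 | hx0
    · rw [← hx0] at h2
      have k2 : (S * gf N B ((1 / 4 : ℝ) * S)).re < 0 := k1
      have e : (((0 : ℝ) : ℂ) + S / 4) = ((1 / 4 : ℝ) : ℂ) * S := by
        push_cast
        ring
      rw [e] at h2
      exact absurd h2 (ne_of_lt k2)
    · have h3 : (starRingEnd ℂ) (S * gf N B (x + S / 4)) = -(S * gf N B (x + S / 4)) := by
        apply Complex.ext
        · rw [Complex.conj_re, Complex.neg_re, h2, neg_zero]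
        · rw [Complex.conj_im, Complex.neg_im]
      have h4 := gf_sq hB (hn x hx)
      have h5 := congrArg (starRingEnd ℂ) (show (S * gf N B (x + S / 4)) ^ 2 =
        -(a : ℂ) * (wp N (x + S / 4) - ev N B) by rw [mul_pow, hS, h4])
      rw [map_pow, h3, neg_sq, mul_pow, hS, h4, map_mul, map_neg, Complex.conj_ofReal, map_sub, wp_cjM,
        hcN, ev_cjM hB, hcN, hcB] at h5
      have ha' : (a : ℂ) ≠ 0 := Complex.ofReal_ne_zero.2 ha.ne'
      have h6 : wp N (x + S / 4) = wp N ((starRingEnd ℂ) (x + S / 4)) := by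
        apply mul_left_cancel₀ (neg_ne_zero.2 ha')
        linear_combination h5
      have e : (starRingEnd ℂ) (x + S / 4 : ℂ) = x - S / 4 := by
        rw [map_add, Complex.conj_ofReal, map_div₀, conj_S h0, map_ofNat]
        ring
      have h7 : (starRingEnd ℂ) (x + S / 4 : ℂ) ∉ N := by
        intro h
        rw [← mem_cjM, hcN] at h
        exact hn x hx h
      rcases hB.lat.inj (hn x hx) h7 h6 with h8 | h8
      · rw [e] at h8
        obtain ⟨m, n, r, i⟩ := coord h0 h8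
        have e2 : ((x + S / 4) - (x - S / 4) : ℂ) = ((1 / 2 : ℝ) : ℂ) * S := by
          push_cast
          ring
        rw [e2, Complex.im_ofReal_mul] at i
        rw [e2, Complex.re_ofReal_mul, h0] at r
        have : ((1 / 2 : ℝ) - m / 2) * S.im = 0 := by linarith
        rcases mul_eq_zero.1 this with h | h
        · have h3 : (m : ℝ) = 1 := by linarith
          rw [h3] at r
          have h4 : (2 * n : ℝ) = -1 := by linarith
          have h5 : (2 * n : ℤ) = -1 := by exact_mod_cast h4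
          omega
        · exact h1 h
      · rw [e] at h8
        obtain ⟨m, n, r, i⟩ := coord h0 h8
        have e2 : ((x + S / 4) + (x - S / 4) : ℂ) = ((2 * x : ℝ) : ℂ) := by
          push_cast
          ring
        rw [e2, Complex.ofReal_im] at i
        rw [e2, Complex.ofReal_re] at r
        have hm : (m : ℝ) = 0 := by
          rcases mul_eq_zero.1 i.symm with h | h
          · exact h
          · exact absurd (by linarith : S.im = 0) h1
        rw [hm] at r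
        have hx2 := hx.2
        have r1 : (0 : ℝ) < n := by linarith
        have r2 : (n : ℝ) < 1 := by linarith
        have r3 : (0 : ℤ) < n := by exact_mod_cast r1
        have r4 : n < (1 : ℤ) := by exact_mod_cast r2
        omega
  have k3 : (S * gf N B ((0 : ℝ) + S / 4)).re < 0 := by
    have k2 : (S * gf N B ((1 / 4 : ℝ) * S)).re < 0 := k1
    have e : (((0 : ℝ) : ℂ) + S / 4) = ((1 / 4 : ℝ) : ℂ) * S := by
      push_cast
      ring
    rw [e]
    exact k2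
  have k4 := neg_conn (f := fun x : ℝ => (S * gf N B (x + S / 4)).re) (s := Set.Icc 0 (1 / 4))
    isPreconnected_Icc ?_ hne2 (by norm_num) k3 (x := 1 / 4) (by norm_num)
  · have e : (1 + S) / 4 = ((1 / 4 : ℝ) : ℂ) + S / 4 := by
      push_cast
      ring
    rw [e]
    exact k4
  · intro x hx
    refine ContinuousAt.continuousWithinAt ?_
    have c1 := (gf_analytic hB (hn x hx)).continuousAt
    have c2 : ContinuousAt (fun x : ℝ => gf N B ((x : ℂ) + S / 4)) x :=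
      ContinuousAt.comp (f := fun x : ℝ => (x : ℂ) + S / 4) c1 (by fun_prop)
    exact Complex.continuous_re.continuousAt.comp (continuousAt_const.mul c2)

theorem gfAB (ha : 0 < a) (hS : S ^ 2 = -(a : ℂ))
    (hA : Two (Submodule.span ℤ {(1 + S) / 2, (1 : ℂ)}) (Submodule.span ℤ {(1 + S) / 4, (1 : ℂ)}))
    (hB : Two (Submodule.span ℤ {(1 + S) / 2, (1 : ℂ)})
      (Submodule.span ℤ {(1 + S) / 2, (1 / 2 : ℂ)})) :
    gf (Submodule.span ℤ {(1 + S) / 2, (1 : ℂ)})
      (Submodule.span ℤ {(1 + S) / 2, (1 / 2 : ℂ)}) ((1 + S) / 4) ^ 2 =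
    -gf (Submodule.span ℤ {(1 + S) / 2, (1 : ℂ)}) (Submodule.span ℤ {(1 + S) / 4, (1 : ℂ)})
      (1 / 2) ^ 2 := by
  obtain ⟨h0, h1⟩ := re_zero ha hS
  have n1 : (1 / 2 : ℂ) ∉ Submodule.span ℤ {(1 + S) / 2, (1 : ℂ)} := by
    have := notN_real h0 h1 (x := 1 / 2) (by norm_num) le_rfl
    simpa using this
  have n2 : (1 + S) / 4 ∉ Submodule.span ℤ {(1 + S) / 2, (1 : ℂ)} := by
    intro h
    obtain ⟨m, n, r, i⟩ := coord h0 h
    have e : ((1 + S) / 4 : ℂ) = ((1 / 4 : ℝ) : ℂ) + ((1 / 4 : ℝ) : ℂ) * S := by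
      push_cast
      ring
    rw [e, Complex.add_im, Complex.ofReal_im, Complex.im_ofReal_mul] at i
    have : ((1 / 4 : ℝ) - m / 2) * S.im = 0 := by linarith
    rcases mul_eq_zero.1 this with h | h
    · have h3 : (2 * m : ℝ) = 1 := by linarith
      have h4 : (2 * m : ℤ) = 1 := by exact_mod_cast h3
      omega
    · exact h1 h
  have m1 : (1 / 2 : ℂ) ∈ Submodule.span ℤ {(1 + S) / 2, (1 / 2 : ℂ)} :=
    Submodule.subset_span (by simp)
  have m2 : (1 + S) / 4 ∈ Submodule.span ℤ {(1 + S) / 4, (1 : ℂ)} :=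
    Submodule.subset_span (by simp)
  rw [gf_sq hB n2, gf_sq hA n1, hA.ev_eq m2 n2, hB.ev_eq m1 n1]
  ring

/-- the quotient of the two values -/
theorem quot_pos (ha : 0 < a) (hS : S ^ 2 = -(a : ℂ))
    (hA : Two (Submodule.span ℤ {(1 + S) / 2, (1 : ℂ)}) (Submodule.span ℤ {(1 + S) / 4, (1 : ℂ)}))
    (hB : Two (Submodule.span ℤ {(1 + S) / 2, (1 : ℂ)})
      (Submodule.span ℤ {(1 + S) / 2, (1 / 2 : ℂ)})) {ρ : ℂ}
    (hρ : ρ * gf (Submodule.span ℤ {(1 + S) / 2, (1 : ℂ)})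
      (Submodule.span ℤ {(1 + S) / 2, (1 / 2 : ℂ)}) ((1 + S) / 4) =
      -gf (Submodule.span ℤ {(1 + S) / 2, (1 : ℂ)}) (Submodule.span ℤ {(1 + S) / 4, (1 : ℂ)})
        (1 / 2)) : 0 < (ρ * S).re ∧ (ρ * S).im = 0 := by
  have k1 := gfA_neg ha hS hA
  have k2 := gfB_neg ha hS hB
  have k3 := gfAB ha hS hA hB
  set g1 := gf (Submodule.span ℤ {(1 + S) / 2, (1 : ℂ)}) (Submodule.span ℤ {(1 + S) / 4, (1 : ℂ)})
    (1 / 2) with hg1
  set g2 := gf (Submodule.span ℤ {(1 + S) / 2, (1 : ℂ)})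
    (Submodule.span ℤ {(1 + S) / 2, (1 / 2 : ℂ)}) ((1 + S) / 4) with hg2
  have n2 : g2 ≠ 0 := by
    intro h
    rw [h, mul_zero, Complex.zero_re] at k2
    exact lt_irrefl _ k2
  have h1 : (ρ * S) ^ 2 = (a : ℂ) := by
    apply mul_left_cancel₀ (pow_ne_zero 2 n2)
    have : g2 ^ 2 * (ρ * S) ^ 2 = (ρ * g2) ^ 2 * S ^ 2 := by ring
    rw [this, hρ, hS, k3]
    ring
  have h2 := congrArg Complex.re h1
  have h3 := congrArg Complex.im h1
  rw [pow_two, Complex.mul_re, Complex.ofReal_re] at h2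
  rw [pow_two, Complex.mul_im, Complex.ofReal_im] at h3
  have h4 : (ρ * S).im = 0 := by
    have h5 : (ρ * S).re * (ρ * S).im = 0 := by linarith
    rcases mul_eq_zero.1 h5 with h6 | h6
    · exfalso
      rw [h6] at h2
      nlinarith [mul_self_nonneg (ρ * S).im]
    · exact h6
  refine ⟨?_, h4⟩
  have h6 : ((ρ * S).re : ℂ) = ρ * S := by
    apply Complex.ext
    · rw [Complex.ofReal_re]
    · rw [Complex.ofReal_im, h4]
  have h7 : ((ρ * S).re : ℂ) * (S * g2) = (a : ℂ) * g1 := by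
    rw [h6]
    have : ρ * S * (S * g2) = (ρ * g2) * S ^ 2 := by ring
    rw [this, hρ, hS]
    ring
  have h8 := congrArg Complex.re h7
  rw [Complex.re_ofReal_mul, Complex.re_ofReal_mul] at h8
  by_contra h9
  have h10 : (ρ * S).re ≤ 0 := not_lt.1 h9
  have h11 := mul_nonneg_of_nonpos_of_nonpos h10 k2.le
  have h12 := mul_neg_of_pos_of_neg ha k1
  linarith

end

end Pool.Agent.Work.MP_8efaaa_nt.W5
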