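import Mathlib
import Pool.Agent.Work.MP_8efaaa_nt.N5.Defs
import Pool.Agent.Work.MP_8efaaa_nt.N5.ALat1
import Pool.Agent.Work.MP_8efaaa_nt.N5.ALat2
import Pool.Agent.Work.MP_8efaaa_nt.R.CLatB
import Pool.Agent.Work.MP_8efaaa_nt.R.CInt
import Pool.Agent.Work.MP_8efaaa_nt.W5.O.OLat

/-!
# W5/O/Orient: `Vm s 1 / Vc s 1 * s` is a positive real number
-/

set_option autoImplicit false

namespace Pool.Agent.Work.MP_8efaaa_nt.W5

open NumberField Pool.Agent.Work.CM Pool.Agent.Work.MP_8efaaa_nt.R Pool.Agent.Work.MP_8efaaa_nt.N5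
open scoped Pointwise nonZeroDivisors

private theorem sup_eq {M : Submodule ℤ ℂ} {x y : ℂ} (h : x - y ∈ M) :
    M ⊔ Submodule.span ℤ {x} = M ⊔ Submodule.span ℤ {y} := by
  refine le_antisymm (sup_le le_sup_left ?_) (sup_le le_sup_left ?_)
  · rw [Submodule.span_singleton_le_iff_mem]
    have e : x = (x - y) + y := by ring
    rw [e]
    exact add_mem (Submodule.mem_sup_left h)
      (Submodule.mem_sup_right (Submodule.mem_span_singleton_self y))
  · rw [Submodule.span_singleton_le_iff_mem]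
    have e : y = -(x - y) + x := by ring
    rw [e]
    exact add_mem (Submodule.mem_sup_left (neg_mem h))
      (Submodule.mem_sup_right (Submodule.mem_span_singleton_self x))

private theorem fr_add {M : Submodule ℤ ℂ} {w g : ℂ} (h : Fr M w) (hg : 4 * g ∈ M) :
    Fr M (w + g) := by
  refine ⟨h.lat, ?_, fun h1 => h.nmem ?_⟩
  · have e : 32 * (w + g) = 32 * w + ((8 : ℤ) : ℂ) * (4 * g) := by push_cast; ring
    rw [e]
    exact add_mem h.mem (intmul_mem hg 8)
  · have e : 16 * w = 16 * (w + g) - ((4 : ℤ) : ℂ) * (4 * g) := by push_cast; ring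
    rw [e]
    exact sub_mem h1 (intmul_mem hg 4)

private theorem ch_add {M : Submodule ℤ ℂ} {w g : ℂ} (hg : 4 * g ∈ M) (k : ℕ) :
    Ch M (w + g) (k + 2) = Ch M w (k + 2) := by
  unfold Ch
  apply sup_eq
  have e : (2 : ℂ) ^ (k + 2) * (w + g) - 2 ^ (k + 2) * w = ((2 ^ k : ℤ) : ℂ) * (4 * g) := by
    push_cast
    ring
  rw [e]
  exact intmul_mem hg _

private theorem turn {M : Submodule ℤ ℂ} {w g : ℂ} (h : Fr M w) (hg : 4 * g ∈ M)
    (hg' : 2 * g ∉ Ch M w 2) :
    fv M (w + g) * gf (Ch M w 2) (half (Ch M w 3)) (2 * w) =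
      gf (Ch M w 2) (Ch M w 1) (2 * g) * fv M w := by
  have h' := fr_add h hg
  have c2 : Ch M (w + g) 2 = Ch M w 2 := ch_add hg 0
  have c3 : Ch M (w + g) 3 = Ch M w 3 := ch_add hg 1
  have c4 : Ch M (w + g) 4 = Ch M w 4 := ch_add hg 2
  have s2 : SS M (w + g) 2 = SS M w 2 := by
    unfold SS
    rw [c3, c4]
    have e : (2 : ℂ) ^ 2 * (w + g) = 2 ^ 2 * w + 4 * g := by ring
    rw [e]
    exact sg_add (twoCh h (k := 3) (by omega)).lat _ (le_Ch 4 hg)
  have m1 : 2 * g ∈ half (Ch M w 3) := by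
    rw [mem_half]
    have e : 2 * (2 * g) = 4 * g := by ring
    rw [e]
    exact le_Ch 3 hg
  have m2 : 2 * w ∈ Ch M w 1 := by simpa using pow_mem_Ch (M := M) (w := w) 1
  have m3 : 2 * (w + g) ∈ Ch M (w + g) 1 := by simpa using pow_mem_Ch (M := M) (w := w + g) 1
  have t1 : Two (Ch M w 2) (Ch M w 1) := twoCh h (k := 1) (by omega)
  have t2 : Two (Ch M w 2) (half (Ch M w 3)) := two_half_Ch h (k := 1) (by omega)
  have t3 : Two (Ch M w 2) (Ch M (w + g) 1) := by
    have := twoCh h' (k := 1) (by omega)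
    rwa [c2] at this
  have n1 : half (Ch M w 3) ≠ Ch M w 1 := half_ne h (k := 1) (by omega)
  have n2 : half (Ch M w 3) ≠ Ch M (w + g) 1 := by
    have := half_ne h' (k := 1) (by omega)
    rwa [c3] at this
  have n3 : Ch M w 1 ≠ Ch M (w + g) 1 := by
    intro h0
    rw [← h0] at m3
    have m4 : 2 * g ∈ Ch M w 1 := by
      have e : 2 * g = 2 * (w + g) - 2 * w := by ring
      rw [e]
      exact sub_mem m3 m2
    exact n1 (Two.eq_of_mem t2 t1 m1 m4 hg')
  have T : Tri (Ch M w 2) (half (Ch M w 3)) (Ch M w 1) (Ch M (w + g) 1) :=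
    ⟨t2, t1, t3, n1, n3, n2.symm⟩
  have a1 := SS_step h (j := 0) (by omega) T
  have T' : Tri (Ch M (w + g) (0 + 2)) (half (Ch M (w + g) (0 + 3))) (Ch M (w + g) (0 + 1))
      (Ch M w 1) := by
    have e2 : Ch M (w + g) (0 + 2) = Ch M w 2 := c2
    have e3 : Ch M (w + g) (0 + 3) = Ch M w 3 := c3
    rw [e2, e3]
    exact T.sw
  have a2 := SS_step h' (j := 0) (by omega) T'
  have e2 : Ch M (w + g) (0 + 2) = Ch M w 2 := c2
  rw [e2] at a2
  have hz : 2 * w ∉ half (Ch M w 3) := by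
    intro h1
    have h2 : 2 * w ∈ Ch M w 2 := T.mem_inter h1 m2
    have h3 := pow_notMem h (i := 1) (k := 2) (by omega) (by omega)
    rw [pow_one] at h3
    exact h3 h2
  have a3 := T.shift m1 hg' hz
  have e4 : 2 * w + 2 * g = 2 * (w + g) := by ring
  rw [e4] at a3
  have e5 : (2 : ℂ) ^ (0 + 1) * (w + g) = 2 * (w + g) := by norm_num
  have e6 : (2 : ℂ) ^ (0 + 1) * w = 2 * w := by norm_num
  rw [e5] at a2
  rw [e6] at a1
  have n4 := SS_ne' h (j := 2) (by omega)
  unfold fv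
  rw [s2, ← a1, ← a2]
  field_simp
  linear_combination a3

section
variable {K : Type*} [Field K] [NumberField K] [Algebra K ℂ] {a : ℕ} {s : K}

private theorem MM1 (hb : Base5 K a s) : MM s 1 = Submodule.span ℤ {32 * w0 s, 1} := by
  have h1 : Lk s 5 = Submodule.span ℤ {32 * w0 s, 1} := by
    unfold Lk
    norm_num
  rw [MM_eq, ← h1]
  apply sup_eq_left.2
  intro y hy
  obtain ⟨z, hz, rfl⟩ := (Submodule.mem_smul_pointwise_iff_exists _ _ _).1 hy
  obtain ⟨x, hx, rfl⟩ := mem_iv.1 hz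
  obtain ⟨t, ht⟩ := hx 1 (by rw [Ideal.one_eq_top]; trivial)
  rw [map_one, mul_one] at ht
  rw [← ht]
  exact eight_mem_Lk hb le_rfl t

omit [Algebra K ℂ] in
private theorem oddI_one : OddI (1 : Ideal (𝓞 K)) := by
  unfold OddI
  rw [Ideal.one_eq_top, Ideal.absNorm_top]
  exact odd_one

theorem orient (hb : Base5 K a s) :
    0 < ((Vm s 1 / Vc s 1) * algebraMap K ℂ s).re ∧
      ((Vm s 1 / Vc s 1) * algebraMap K ℂ s).im = 0 := by
  have hF : Fr (MM s 1) (w0 s) := fr_MM hb oddI_one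
  have hM := MM1 hb
  have ha : (0 : ℝ) < a := by
    have := hb.mod
    have h0 : 0 < a := by omega
    exact_mod_cast h0
  set S := algebraMap K ℂ s with hS
  have hSq : S ^ 2 = -((a : ℝ) : ℂ) := by
    rw [hS, ← map_pow, hb.sq, map_neg, map_natCast]
    simp
  obtain ⟨h0, h1⟩ := re_zero ha hSq
  have e4 : 4 * w0 s = (1 + S) / 2 := by
    unfold w0
    rw [← hS]
    ring
  have hC : ∀ k ≤ 5, Ch (MM s 1) (w0 s) k = Submodule.span ℤ {(2 : ℂ) ^ k * w0 s, 1} := by
    intro k hk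
    have mm : (1 : ℂ) ∈ MM s 1 := by
      rw [hM]
      exact Submodule.subset_span (by simp)
    unfold Ch
    refine le_antisymm (sup_le ?_ ?_) ?_
    · rw [hM, Submodule.span_le]
      rintro z (rfl | rfl)
      · have e : 32 * w0 s = ((2 ^ (5 - k) : ℤ) : ℂ) * (2 ^ k * w0 s) := by
          push_cast
          rw [← mul_assoc, ← pow_add, Nat.sub_add_cancel hk]
          norm_num
        rw [e]
        exact intmul_mem (Submodule.subset_span (by simp)) _
      · exact Submodule.subset_span (by simp)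
    · rw [Submodule.span_singleton_le_iff_mem]
      exact Submodule.subset_span (by simp)
    · rw [Submodule.span_le]
      rintro z (rfl | rfl)
      · exact Submodule.mem_sup_right (Submodule.mem_span_singleton_self _)
      · exact Submodule.mem_sup_left mm
  have c2 : Ch (MM s 1) (w0 s) 2 = Submodule.span ℤ {(1 + S) / 2, (1 : ℂ)} := by
    rw [hC 2 (by omega), ← e4]
    norm_num
  have c1 : Ch (MM s 1) (w0 s) 1 = Submodule.span ℤ {(1 + S) / 4, (1 : ℂ)} := by
    rw [hC 1 (by omega)]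
    have : (2 : ℂ) ^ 1 * w0 s = (1 + S) / 4 := by
      linear_combination e4 / 2
    rw [this]
  have c3 : half (Ch (MM s 1) (w0 s) 3) = Submodule.span ℤ {(1 + S) / 2, (1 / 2 : ℂ)} := by
    rw [hC 3 (by omega)]
    have e : (2 : ℂ) ^ 3 * w0 s = 1 + S := by linear_combination 2 * e4
    rw [e]
    ext z
    rw [mem_half, mem_sp, mem_sp]
    constructor
    · rintro ⟨m, n, h⟩
      exact ⟨m, n, by linear_combination h / 2⟩
    · rintro ⟨m, n, h⟩
      exact ⟨m, n, by linear_combination 2 * h⟩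
  have tA : Two (Ch (MM s 1) (w0 s) 2) (Ch (MM s 1) (w0 s) 1) := twoCh hF (k := 1) (by omega)
  have tB : Two (Ch (MM s 1) (w0 s) 2) (half (Ch (MM s 1) (w0 s) 3)) :=
    two_half_Ch hF (k := 1) (by omega)
  have nh : (1 / 2 : ℂ) ∉ Ch (MM s 1) (w0 s) 2 := by
    rw [c2]
    have := notN_real h0 h1 (x := 1 / 2) (by norm_num) le_rfl
    simpa using this
  have ht := turn hF (g := -(1 / 4)) (by
    rw [hM]
    have e : 4 * -(1 / 4 : ℂ) = -1 := by norm_num
    rw [e]
    exact neg_mem (Submodule.subset_span (by simp))) (by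
    intro h
    have e : 2 * -(1 / 4 : ℂ) = -(1 / 2) := by norm_num
    rw [e] at h
    exact nh (by simpa using neg_mem h))
  have e5 : 2 * -(1 / 4 : ℂ) = -(1 / 2) := by norm_num
  have e6 : w0 s + -(1 / 4) = w0 s - 1 / 4 := by ring
  have e7 : 2 * w0 s = (1 + S) / 4 := by linear_combination e4 / 2
  rw [e5, e6, gf_neg tA, e7, c1, c2, c3] at ht
  rw [c1, c2] at tA
  rw [c2, c3] at tB
  have hV : Vc s 1 ≠ 0 := fv_neE hF
  refine quot_pos ha hSq tA tB (ρ := Vm s 1 / Vc s 1) ?_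
  have hV1 : Vc s 1 = fv (MM s 1) (w0 s) := rfl
  have hVm1 : Vm s 1 = fv (MM s 1) (w0 s - 1 / 4) := rfl
  rw [← hV1, ← hVm1] at ht
  rw [div_mul_eq_mul_div, ht, mul_div_assoc, div_self hV, mul_one]

end

end Pool.Agent.Work.MP_8efaaa_nt.W5
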